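import Mathlib

namespace Pool.Agent.H.MP_47869a_co
open Finset
open scoped Classical

variable {n : ℕ}

lemma rank_lt (T : Finset (Fin n)) (f : ℕ → ℕ) :
    ∑ x ∈ T, f #(T.filter (· < x)) = ∑ i ∈ range #T, f i := by
  induction T using Finset.induction_on_max with
  | empty => simp
  | insert a s h ih =>
    have ha : a ∉ s := fun h' => lt_irrefl _ (h a h')
    rw [sum_insert ha, card_insert_of_notMem ha, sum_range_succ, ← ih, add_comm]
    congr 1
    · refine sum_congr rfl fun x hx => ?_
      rw [filter_insert, if_neg (not_lt.2 (h x hx).le)]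
    · rw [filter_insert, if_neg (lt_irrefl _), filter_true_of_mem h]

lemma rank_gt (T : Finset (Fin n)) (f : ℕ → ℕ) :
    ∑ x ∈ T, f #(T.filter (x < ·)) = ∑ i ∈ range #T, f i := by
  induction T using Finset.induction_on_min with
  | empty => simp
  | insert a s h ih =>
    have ha : a ∉ s := fun h' => lt_irrefl _ (h a h')
    rw [sum_insert ha, card_insert_of_notMem ha, sum_range_succ, ← ih, add_comm]
    congr 1
    · refine sum_congr rfl fun x hx => ?_
      rw [filter_insert, if_neg (not_lt.2 (h x hx).le)]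
    · rw [filter_insert, if_neg (lt_irrefl _), filter_true_of_mem h]

lemma cnt3 (T : Finset (Fin n)) {x : Fin n} (hx : x ∈ T) :
    #(T.filter (· < x)) + #(T.filter (x < ·)) + 1 = #T := by
  rw [← card_union_of_disjoint, ← card_insert_of_notMem (a := x)]
  · congr 1
    ext y
    simp only [mem_insert, mem_union, mem_filter]
    constructor
    · rintro (rfl | h | h)
      exacts [hx, h.1, h.1]
    · intro hy
      rcases lt_trichotomy y x with h | h | h
      exacts [Or.inr (Or.inl ⟨hy, h⟩), Or.inl h, Or.inr (Or.inr ⟨hy, h⟩)]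
  · simp
  · rw [disjoint_filter]
    intro y _ h1 h2
    exact lt_asymm h1 h2

def mk (S : Finset (Fin n)) (e : ℕ) (D : Fin n → ℕ) (y : Fin n) : ℕ := if y ∈ S then e else D y

lemma mk_pos {S : Finset (Fin n)} {e : ℕ} {D : Fin n → ℕ} {y : Fin n} (h : y ∈ S) :
    mk S e D y = e := if_pos h

lemma mk_neg {S : Finset (Fin n)} {e : ℕ} {D : Fin n → ℕ} {y : Fin n} (h : y ∉ S) :
    mk S e D y = D y := if_neg h

lemma map_mark (K S : Finset (Fin n)) (h : Disjoint K S) (D : Fin n → ℕ) (e : ℕ) :
    (K ∪ S).val.map (mk S e D) =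
      K.val.map D + Multiset.replicate #S e := by
  rw [← disjUnion_eq_union K S h, disjUnion_val, Multiset.map_add]
  congr 1
  · refine Multiset.map_congr rfl fun y hy => ?_
    rw [mk_neg (disjoint_left.1 h hy)]
  · rw [Multiset.eq_replicate]
    refine ⟨by simp, fun b hb => ?_⟩
    obtain ⟨y, hy, rfl⟩ := Multiset.mem_map.1 hb
    rw [mk_pos (show y ∈ S from hy)]

def Q (r : ℕ) (ok : Fin n → Fin n → Prop) (c : Fin n → Fin n → Fin n → Prop)
    (ps : List (Fin n)) (K T N : Finset (Fin n)) (D : Fin n → ℕ) (b w : Fin n → Fin n) : Prop :=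
  (∀ i, i ∉ ps → w i = b i) ∧ (∀ j ∈ ps, w j ∈ K ∨ w j ∈ T ∨ w j ∈ N) ∧
  (∀ y, y ∈ K ∨ y ∈ T ∨ y ∈ N → ∃ j ∈ ps, w j = y) ∧
  (∀ j ∈ ps, ∀ j' ∈ ps, w j = w j' → j = j') ∧ (∀ j ∈ ps, ok j (w j)) ∧
  (∀ j ∈ ps, w j ∈ K → (j : ℕ) ≤ D (w j)) ∧
  (∀ j ∈ ps, ∀ j' ∈ ps, j < j' → c j (w j) (w j') → (j' : ℕ) ≤ j + r)

noncomputable def G (r : ℕ) (ok : Fin n → Fin n → Prop) :
    List (Fin n) → Multiset ℕ → ℕ → Finset (Fin n) → ℕ
  | [], M, u, N => if M = 0 ∧ u = 0 ∧ N = ∅ then 1 else 0
  | j :: ps, M, u, N =>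
    (M.map fun d => if (j : ℕ) ≤ d then
      G r ok ps (M.erase d) (u + #(N.filter (ok j))) (N.filter (fun y => ¬ ok j y)) else 0).sum +
    ∑ i ∈ range (u + #(N.filter (ok j))), G r ok ps (M + Multiset.replicate i (j + r))
      (u + #(N.filter (ok j)) - 1 - i) (N.filter (fun y => ¬ ok j y))

lemma G_cons (r : ℕ) (ok : Fin n → Fin n → Prop) (j : Fin n) (ps : List (Fin n))
    (K T N : Finset (Fin n)) (D : Fin n → ℕ) (hTN : Disjoint T N) :
    G r ok (j :: ps) (K.val.map D) #T N =
      ∑ x ∈ K, (if (j : ℕ) ≤ D x then G r ok ps ((K.erase x).val.map D)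
        #(T ∪ N.filter (ok j)) (N.filter (fun y => ¬ ok j y)) else 0) +
      ∑ i ∈ range #(T ∪ N.filter (ok j)), G r ok ps (K.val.map D + Multiset.replicate i (j + r))
        (#(T ∪ N.filter (ok j)) - 1 - i) (N.filter (fun y => ¬ ok j y)) := by
  rw [card_union_of_disjoint (hTN.mono_right (filter_subset _ _)), G, Multiset.map_map]
  congr 1
  rw [Finset.sum_eq_multiset_sum]
  congr 1
  refine Multiset.map_congr rfl fun x hx => ?_
  simp only [Function.comp]
  rw [erase_val, Multiset.map_erase_of_mem _ _ hx]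

lemma Q_down {r : ℕ} {ok : Fin n → Fin n → Prop} {c : Fin n → Fin n → Fin n → Prop}
    {j : Fin n} {ps : List (Fin n)} (hj : j ∉ ps) {K T N K' T' N' : Finset (Fin n)}
    {D D' : Fin n → ℕ} {b w : Fin n → Fin n} (h : Q r ok c (j :: ps) K T N D b w)
    (hU : ∀ y, (y ∈ K' ∨ y ∈ T' ∨ y ∈ N') ↔ (y ≠ w j ∧ (y ∈ K ∨ y ∈ T ∨ y ∈ N)))
    (hD : ∀ j' ∈ ps, w j' ∈ K' → (j' : ℕ) ≤ D' (w j')) :
    Q r ok c ps K' T' N' D' (Function.update b j (w j)) w := by
  obtain ⟨h1, h2, h3, h4, h5, -, h7⟩ := h
  have m : ∀ {i}, i ∈ ps → i ∈ j :: ps := fun h => List.mem_cons_of_mem _ h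
  refine ⟨fun i hi => ?_, fun i hi => ?_, fun y hy => ?_, fun i hi i' hi' => h4 i (m hi) i' (m hi'),
    fun i hi => h5 i (m hi), hD, fun i hi i' hi' => h7 i (m hi) i' (m hi')⟩
  · by_cases e : i = j
    · subst e; simp
    · rw [Function.update_of_ne e]; exact h1 i (by simp [e, hi])
  · refine (hU _).2 ⟨fun e => hj ?_, h2 i (m hi)⟩
    rw [← h4 i (m hi) j (by simp) e]; exact hi
  · obtain ⟨hne, hy⟩ := (hU y).1 hy
    obtain ⟨i, hi, rfl⟩ := h3 y hy
    rcases List.mem_cons.1 hi with rfl | hi
    · exact absurd rfl hne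
    · exact ⟨i, hi, rfl⟩

lemma Q_up {r : ℕ} {ok : Fin n → Fin n → Prop} {c : Fin n → Fin n → Fin n → Prop}
    {j : Fin n} {ps : List (Fin n)} (hj : ∀ i ∈ ps, j < i) {K T N K' T' N' : Finset (Fin n)}
    {D D' : Fin n → ℕ} {b w : Fin n → Fin n} {x : Fin n}
    (h : Q r ok c ps K' T' N' D' (Function.update b j x) w)
    (hU : ∀ y, (y ∈ K' ∨ y ∈ T' ∨ y ∈ N') ↔ (y ≠ x ∧ (y ∈ K ∨ y ∈ T ∨ y ∈ N)))
    (hx : x ∈ K ∨ x ∈ T ∨ x ∈ N) (hok : ok j x) (hxD : x ∈ K → (j : ℕ) ≤ D x)
    (hD : ∀ j' ∈ ps, w j' ∈ K → (j' : ℕ) ≤ D (w j'))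
    (hc : ∀ j' ∈ ps, c j x (w j') → (j' : ℕ) ≤ j + r) :
    Q r ok c (j :: ps) K T N D b w ∧ w j = x := by
  obtain ⟨h1, h2, h3, h4, h5, -, h7⟩ := h
  have hj' : j ∉ ps := fun h => lt_irrefl _ (hj j h)
  have e : w j = x := by rw [h1 j hj']; simp
  refine ⟨⟨fun i hi => ?_, fun i hi => ?_, fun y hy => ?_, fun i hi i' hi' h => ?_,
    fun i hi => ?_, fun i hi => ?_, fun i hi i' hi' hlt => ?_⟩, e⟩
  · simp only [List.mem_cons, not_or] at hi
    rw [h1 i hi.2, Function.update_of_ne hi.1]
  · rcases List.mem_cons.1 hi with rfl | hi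
    · rw [e]; exact hx
    · exact ((hU _).1 (h2 i hi)).2
  · by_cases hy' : y = x
    · exact ⟨j, by simp, by rw [e, hy']⟩
    · obtain ⟨i, hi, h⟩ := h3 y ((hU y).2 ⟨hy', hy⟩)
      exact ⟨i, List.mem_cons_of_mem _ hi, h⟩
  · rcases List.mem_cons.1 hi with rfl | g <;> rcases List.mem_cons.1 hi' with rfl | g'
    · rfl
    · exact absurd (h.symm.trans e) ((hU _).1 (h2 _ g')).1
    · exact absurd (h.trans e) ((hU _).1 (h2 _ g)).1
    · exact h4 _ g _ g' h
  · rcases List.mem_cons.1 hi with rfl | hi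
    · rw [e]; exact hok
    · exact h5 i hi
  · rcases List.mem_cons.1 hi with rfl | hi
    · rw [e]; exact hxD
    · exact hD i hi
  · rcases List.mem_cons.1 hi with rfl | g <;> rcases List.mem_cons.1 hi' with rfl | g'
    · exact absurd hlt (lt_irrefl _)
    · rw [e]; exact hc _ g'
    · exact absurd hlt (lt_asymm (hj _ g))
    · exact h7 _ g _ g' hlt

lemma B_le (r : ℕ) (ok : Fin n → Fin n → Prop) (hok : ∀ j j' y, j ≤ j' → ok j y → ok j' y) :
    ∀ (ps : List (Fin n)), ps.Pairwise (· < ·) → ∀ (K T N : Finset (Fin n)) (D : Fin n → ℕ)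
      (b : Fin n → Fin n), Disjoint K T → Disjoint K N → Disjoint T N →
      (∀ j ∈ ps, ∀ y ∈ T, ok j y) →
      #(univ.filter (Q r ok (fun j x y => ok j y ∧ y < x) ps K T N D b)) ≤
        G r ok ps (K.val.map D) #T N := by
  intro ps
  induction ps with
  | nil =>
    intro _ K T N D b _ _ _ _
    rcases (univ.filter (Q r ok (fun j x y => ok j y ∧ y < x) [] K T N D b)).eq_empty_or_nonempty
      with h | ⟨w, hw⟩
    · simp [h]
    · have h3 := (mem_filter.1 hw).2.2.2.1
      have hK : K = ∅ := eq_empty_of_forall_notMem fun y hy => by simpa using h3 y (Or.inl hy)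
      have hT : T = ∅ := eq_empty_of_forall_notMem fun y hy => by
        simpa using h3 y (Or.inr (Or.inl hy))
      have hN : N = ∅ := eq_empty_of_forall_notMem fun y hy => by
        simpa using h3 y (Or.inr (Or.inr hy))
      rw [G, if_pos (by simp [hK, hT, hN]), card_le_one]
      intro u hu v hv
      funext i
      rw [(mem_filter.1 hu).2.1 i (by simp), (mem_filter.1 hv).2.1 i (by simp)]
  | cons j ps ih =>
    intro hp K T N D b hKT hKN hTN hT
    obtain ⟨hj, hp⟩ := List.pairwise_cons.1 hp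
    have hj' : j ∉ ps := fun h => lt_irrefl _ (hj j h)
    have hKT1 : Disjoint K (T ∪ N.filter (ok j)) :=
      disjoint_union_right.2 ⟨hKT, hKN.mono_right (filter_subset _ _)⟩
    have hT1 : ∀ y ∈ T ∪ N.filter (ok j), ok j y := fun y hy => by
      rcases mem_union.1 hy with h | h
      exacts [hT j (by simp) y h, (mem_filter.1 h).2]
    have hT1N : Disjoint (T ∪ N.filter (ok j)) (N.filter (fun y => ¬ ok j y)) :=
      disjoint_left.2 fun y h1 h2 => (mem_filter.1 h2).2 (hT1 y h1)
    have hKN0 : Disjoint K (N.filter (fun y => ¬ ok j y)) := hKN.mono_right (filter_subset _ _)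
    rw [G_cons _ _ _ _ _ _ _ _ hTN,
      card_eq_sum_card_fiberwise (f := fun w => w j) (t := K ∪ (T ∪ N.filter (ok j))),
      sum_union hKT1, ← rank_lt]
    · refine add_le_add (sum_le_sum fun x hx => ?_) (sum_le_sum fun x hx => ?_)
      · split_ifs with hD
        · refine le_trans (card_le_card ?_) (ih hp (K.erase x) _ _ D (Function.update b j x)
            (hKT1.mono_left (erase_subset _ _)) (hKN0.mono_left (erase_subset _ _)) hT1N
            (fun i hi y hy => hok j i y (hj i hi).le (hT1 y hy)))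
          intro w hw
          simp only [mem_filter, mem_univ, true_and] at hw ⊢
          obtain ⟨hw, rfl⟩ := hw
          refine Q_down hj' hw (fun y => ?_) (fun i hi h => ?_)
          · have a1 := disjoint_left.1 hKT hx
            have a2 := disjoint_left.1 hKN hx
            simp only [mem_erase, mem_union, mem_filter]
            by_cases e : y = w j
            · subst e; tauto
            · tauto
          · exact hw.2.2.2.2.2.1 i (List.mem_cons_of_mem _ hi) (mem_of_mem_erase h)
        · rw [Nat.le_zero, card_eq_zero, filter_eq_empty_iff]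
          rintro w hw rfl
          exact hD ((mem_filter.1 hw).2.2.2.2.2.2.1 j (by simp) hx)
      · have hc := cnt3 _ hx
        have hKS : Disjoint K ((T ∪ N.filter (ok j)).filter (· < x)) :=
          hKT1.mono_right (filter_subset _ _)
        rw [← map_mark K _ hKS, show #(T ∪ N.filter (ok j)) - 1 -
          #((T ∪ N.filter (ok j)).filter (· < x)) = #((T ∪ N.filter (ok j)).filter (x < ·)) by omega]
        refine le_trans (card_le_card ?_) (ih hp _ _ _ _ (Function.update b j x)
          (disjoint_union_left.2 ⟨hKT1.mono_right (filter_subset _ _),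
            disjoint_filter.2 fun y _ h1 h2 => lt_asymm h1 h2⟩)
          (disjoint_union_left.2 ⟨hKN0, hT1N.mono_left (filter_subset _ _)⟩)
          (hT1N.mono_left (filter_subset _ _))
          (fun i hi y hy => hok j i y (hj i hi).le (hT1 y (mem_filter.1 hy).1)))
        intro w hw
        simp only [mem_filter, mem_univ, true_and] at hw ⊢
        obtain ⟨hw, rfl⟩ := hw
        refine Q_down hj' hw (fun y => ?_) (fun i hi h => ?_)
        · have a1 := disjoint_right.1 hKT1 hx
          have a2 := disjoint_left.1 hT1N hx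
          simp only [mem_union, mem_filter] at a2 ⊢
          rcases lt_trichotomy y (w j) with e | e | e
          · have := e.ne; tauto
          · subst e
            have := lt_irrefl (w j)
            tauto
          · have := e.ne'; tauto
        · by_cases hS : w i ∈ (T ∪ N.filter (ok j)).filter (· < w j)
          · rw [mk_pos hS]
            exact hw.2.2.2.2.2.2 j (by simp) i (List.mem_cons_of_mem _ hi) (hj i hi)
              ⟨hT1 _ (mem_filter.1 hS).1, (mem_filter.1 hS).2⟩
          · rw [mk_neg hS]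
            exact hw.2.2.2.2.2.1 i (List.mem_cons_of_mem _ hi) ((mem_union.1 h).resolve_right hS)
    · intro w hw
      simp only [coe_filter, mem_univ, true_and, Set.mem_ofPred_eq] at hw
      have a1 := hw.2.1 j (by simp)
      have a2 := hw.2.2.2.2.1 j (by simp)
      simp only [mem_coe, mem_union, mem_filter]
      tauto

lemma le_A (r : ℕ) (ok : Fin n → Fin n → Prop) (hok : ∀ j j' y, j ≤ j' → ok j y → ok j' y)
    (hok' : ∀ j y y', y ≤ y' → ok j y → ok j y') :
    ∀ (ps : List (Fin n)), ps.Pairwise (· < ·) → ∀ (K T N : Finset (Fin n)) (D : Fin n → ℕ)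
      (b : Fin n → Fin n), Disjoint T N →
      (∀ j ∈ ps, ∀ y, y ∈ K ∨ y ∈ T → ok j y) → (∀ y ∈ K, ∀ z, z ∈ T ∨ z ∈ N → z < y) →
      (∀ j ∈ ps, ∀ y ∈ K, D y ≤ j + r) →
      G r ok ps (K.val.map D) #T N ≤
        #(univ.filter (Q r ok (fun _ x y => x < y) ps K T N D b)) := by
  intro ps
  induction ps with
  | nil =>
    intro _ K T N D b _ _ _ _
    rw [G]
    split_ifs with h
    · obtain ⟨h1, h2, h3⟩ := h
      obtain rfl : K = ∅ := by simpa using h1
      obtain rfl : T = ∅ := by simpa using h2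
      subst h3
      exact card_pos.2 ⟨b, by simp [Q]⟩
    · exact Nat.zero_le _
  | cons j ps ih =>
    intro hp K T N D b hTN hT hK hD
    obtain ⟨hj, hp⟩ := List.pairwise_cons.1 hp
    have hK1 : ∀ y ∈ K, ∀ z ∈ T ∪ N.filter (ok j), z < y := fun y hy z hz => by
      rcases mem_union.1 hz with h | h
      exacts [hK y hy z (Or.inl h), hK y hy z (Or.inr (mem_filter.1 h).1)]
    have hK0 : ∀ y ∈ K, ∀ z ∈ N.filter (fun y => ¬ ok j y), z < y := fun y hy z hz =>
      hK y hy z (Or.inr (mem_filter.1 hz).1)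
    have hKT1 : Disjoint K (T ∪ N.filter (ok j)) :=
      disjoint_left.2 fun y h1 h2 => lt_irrefl _ (hK1 y h1 y h2)
    have hT1 : ∀ y ∈ T ∪ N.filter (ok j), ok j y := fun y hy => by
      rcases mem_union.1 hy with h | h
      exacts [hT j (by simp) y (Or.inr h), (mem_filter.1 h).2]
    have hT1N : Disjoint (T ∪ N.filter (ok j)) (N.filter (fun y => ¬ ok j y)) :=
      disjoint_left.2 fun y h1 h2 => (mem_filter.1 h2).2 (hT1 y h1)
    have hT0 : ∀ y ∈ T ∪ N.filter (ok j), ∀ z ∈ N.filter (fun y => ¬ ok j y), z < y :=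
      fun y hy z hz => by
        by_contra hh
        exact (mem_filter.1 hz).2 (hok' j y z (not_lt.1 hh) (hT1 y hy))
    refine le_trans ?_ (card_le_card (filter_subset (fun w => w j ∈ K ∪ (T ∪ N.filter (ok j))) _))
    rw [G_cons _ _ _ _ _ _ _ _ hTN, ← sum_card_fiberwise_eq_card_filter, sum_union hKT1, ← rank_gt]
    refine add_le_add (sum_le_sum fun x hx => ?_) (sum_le_sum fun x hx => ?_)
    · split_ifs with hDx
      · refine le_trans (ih hp (K.erase x) _ _ D (Function.update b j x) hT1N
          (fun i hi y hy => hok j i y (hj i hi).le ?_) (fun y hy z hz => ?_)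
          (fun i hi y hy => hD i (List.mem_cons_of_mem _ hi) y (mem_of_mem_erase hy)))
          (card_le_card ?_)
        · rcases hy with h | h
          exacts [hT j (by simp) y (Or.inl (mem_of_mem_erase h)), hT1 y h]
        · rcases hz with h | h
          exacts [hK1 y (mem_of_mem_erase hy) z h, hK0 y (mem_of_mem_erase hy) z h]
        intro w hw
        simp only [mem_filter, mem_univ, true_and] at hw ⊢
        refine Q_up hj hw (fun y => ?_) (Or.inl hx) (hT j (by simp) x (Or.inl hx)) (fun _ => hDx)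
          (fun i hi h => ?_) (fun i hi h => ?_)
        · have a1 : x ∉ T := fun h => lt_irrefl _ (hK x hx x (Or.inl h))
          have a2 : x ∉ N := fun h => lt_irrefl _ (hK x hx x (Or.inr h))
          simp only [mem_erase, mem_union, mem_filter]
          by_cases e : y = x
          · subst e; tauto
          · tauto
        · rcases hw.2.1 i hi with h' | h' | h'
          · exact hw.2.2.2.2.2.1 i hi h'
          · exact absurd (hK1 _ h _ h') (lt_irrefl _)
          · exact absurd (hK0 _ h _ h') (lt_irrefl _)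
        · rcases hw.2.1 i hi with h' | h' | h'
          · exact (hw.2.2.2.2.2.1 i hi h').trans (hD j (by simp) _ (mem_of_mem_erase h'))
          · exact absurd (hK1 _ hx _ h') (lt_asymm h)
          · exact absurd (hK0 _ hx _ h') (lt_asymm h)
      · exact Nat.zero_le _
    · have hc := cnt3 _ hx
      have hKS : Disjoint K ((T ∪ N.filter (ok j)).filter (x < ·)) :=
        hKT1.mono_right (filter_subset _ _)
      rw [← map_mark K _ hKS, show #(T ∪ N.filter (ok j)) - 1 -
        #((T ∪ N.filter (ok j)).filter (x < ·)) = #((T ∪ N.filter (ok j)).filter (· < x)) by omega]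
      refine le_trans (ih hp _ _ _ _ (Function.update b j x) (hT1N.mono_left (filter_subset _ _))
        (fun i hi y hy => hok j i y (hj i hi).le ?_) (fun y hy z hz => ?_) (fun i hi y hy => ?_))
        (card_le_card ?_)
      · rcases hy with h | h
        · rcases mem_union.1 h with h | h
          exacts [hT j (by simp) y (Or.inl h), hT1 y (mem_filter.1 h).1]
        · exact hT1 y (mem_filter.1 h).1
      · rcases mem_union.1 hy with hy | hy <;> rcases hz with hz | hz
        · exact hK1 y hy z (mem_filter.1 hz).1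
        · exact hK0 y hy z hz
        · exact (mem_filter.1 hz).2.trans (mem_filter.1 hy).2
        · exact hT0 y (mem_filter.1 hy).1 z hz
      · by_cases hS : y ∈ (T ∪ N.filter (ok j)).filter (x < ·)
        · rw [mk_pos hS]
          have : (j : ℕ) < i := hj i hi
          omega
        · rw [mk_neg hS]
          exact hD i (List.mem_cons_of_mem _ hi) y ((mem_union.1 hy).resolve_right hS)
      intro w hw
      simp only [mem_filter, mem_univ, true_and] at hw ⊢
      have a1 := disjoint_right.1 hKT1 hx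
      refine Q_up hj hw (fun y => ?_) ?_ (hT1 x hx) (fun h => absurd h a1)
        (fun i hi h => ?_) (fun i hi h => ?_)
      · have a2 := disjoint_left.1 hT1N hx
        simp only [mem_union, mem_filter] at a2 ⊢
        rcases lt_trichotomy y x with e | e | e
        · have := e.ne; tauto
        · subst e
          have := lt_irrefl y
          tauto
        · have := e.ne'; tauto
      · rcases mem_union.1 hx with h | h
        exacts [Or.inr (Or.inl h), Or.inr (Or.inr (mem_filter.1 h).1)]
      · have := hw.2.2.2.2.2.1 i hi (mem_union_left _ h)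
        rw [mk_neg (disjoint_left.1 hKS h)] at this
        exact this
      · rcases hw.2.1 i hi with h' | h' | h'
        · have := hw.2.2.2.2.2.1 i hi h'
          by_cases hS : w i ∈ (T ∪ N.filter (ok j)).filter (x < ·)
          · rwa [mk_pos hS] at this
          · rw [mk_neg hS] at this
            exact this.trans (hD j (by simp) _ ((mem_union.1 h').resolve_right hS))
        · exact absurd (mem_filter.1 h').2 (lt_asymm h)
        · exact absurd (hT0 x hx _ h') (lt_asymm h)

lemma board (r : ℕ) (ok : Fin n → Fin n → Prop) (hok : ∀ j j' y, j ≤ j' → ok j y → ok j' y)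
    (hok' : ∀ j y y', y ≤ y' → ok j y → ok j y') (ps : List (Fin n)) (hp : ps.Pairwise (· < ·))
    (N : Finset (Fin n)) (b : Fin n → Fin n) :
    #(univ.filter (Q r ok (fun j x y => ok j y ∧ y < x) ps ∅ ∅ N (fun _ => 0) b)) ≤
      #(univ.filter (Q r ok (fun _ x y => x < y) ps ∅ ∅ N (fun _ => 0) b)) :=
  (B_le r ok hok ps hp ∅ ∅ N _ b (by simp) (by simp) (by simp) (by simp)).trans
    (le_A r ok hok hok' ps hp ∅ ∅ N _ b (by simp) (by simp) (by simp) (by simp))

end Pool.Agent.H.MP_47869a_co
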