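import Pool.Agent.H.MP_47869a_co.A

namespace Pool.Agent.H.MP_47869a_co
open Finset
open scoped Classical

variable {n : ℕ}

def C (r : ℕ) (w : Fin n → Fin n) : ℕ → Fin n → Prop
  | 0, _ => True
  | k + 1, i => ∃ i' : Fin n, (i' : ℕ) + r + 1 ≤ i ∧ w i' < w i ∧ C r w k i'

def CS (r : ℕ) (s : Fin n → Option (Fin n)) : ℕ → Fin n → Fin n → Prop
  | 0, i, v => s i = some v
  | k + 1, i, v => s i = some v ∧ ∃ i' v' : Fin n, (i' : ℕ) + r + 1 ≤ i ∧ v' < v ∧ CS r s k i' v'

def Ok (r : ℕ) (s : Fin n → Option (Fin n)) (K : ℕ) (j x : Fin n) : Prop :=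
  ∃ i v : Fin n, (i : ℕ) + r + 1 ≤ j ∧ v < x ∧ CS r s K i v

noncomputable def str (r K : ℕ) (w : Fin n → Fin n) (i : Fin n) : Option (Fin n) :=
  if C r w (K + 1) i then none else some (w i)

lemma C_down {r : ℕ} {w : Fin n → Fin n} : ∀ {k : ℕ} {i : Fin n}, C r w (k + 1) i → C r w k i := by
  intro k
  induction k with
  | zero => intro i _; trivial
  | succ k ih => rintro i ⟨i', h1, h2, h3⟩; exact ⟨i', h1, h2, ih h3⟩

lemma CS_down {r : ℕ} {s : Fin n → Option (Fin n)} :
    ∀ {k : ℕ} {i v : Fin n}, CS r s (k + 1) i v → CS r s k i v := by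
  intro k
  induction k with
  | zero => intro i v h; exact h.1
  | succ k ih => rintro i v ⟨h0, i', v', h1, h2, h3⟩; exact ⟨h0, i', v', h1, h2, ih h3⟩

lemma CS_le {r : ℕ} {s : Fin n → Option (Fin n)} {k K : ℕ} (h : k ≤ K) {i v : Fin n}
    (hc : CS r s K i v) : CS r s k i v := by
  induction K, h using Nat.le_induction with
  | base => exact hc
  | succ K _ ih => exact ih (CS_down hc)

lemma CS_sound {r : ℕ} {s : Fin n → Option (Fin n)} {w : Fin n → Fin n}
    (h : ∀ i v, s i = some v → w i = v) :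
    ∀ {k : ℕ} {i v : Fin n}, CS r s k i v → w i = v ∧ C r w k i := by
  intro k
  induction k with
  | zero => intro i v hc; exact ⟨h i v hc, trivial⟩
  | succ k ih =>
    rintro i v ⟨h0, i', v', h1, h2, h3⟩
    obtain ⟨rfl, h4⟩ := ih h3
    obtain rfl := h i v h0
    exact ⟨rfl, i', h1, h2, h4⟩

lemma low_chain {r K : ℕ} {s : Fin n → Option (Fin n)} {w : Fin n → Fin n}
    (h : ∀ i v, s i = some v → w i = v) (J : Fin n)
    (hJ : ∀ i < J, s i = none → Ok r s K i (w i)) :
    ∀ k ≤ K, ∀ i < J, C r w k i → ∃ i' v', i' ≤ i ∧ v' ≤ w i ∧ CS r s k i' v' := by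
  intro k
  induction k with
  | zero =>
    intro hk i hi _
    cases e : s i with
    | none =>
      obtain ⟨i', v', h1, h2, h3⟩ := hJ i hi e
      exact ⟨i', v', by rw [Fin.le_def]; omega, h2.le, CS_le hk h3⟩
    | some v => exact ⟨i, v, le_rfl, (h i v e).ge, e⟩
  | succ k ih =>
    intro hk i hi hc
    cases e : s i with
    | none =>
      obtain ⟨i', v', h1, h2, h3⟩ := hJ i hi e
      exact ⟨i', v', by rw [Fin.le_def]; omega, h2.le, CS_le hk h3⟩
    | some v =>
      obtain ⟨i1, h1, h2, h3⟩ := hc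
      obtain ⟨i2, v2, h4, h5, h6⟩ := ih (by omega) i1
        (by rw [Fin.lt_def] at hi ⊢; omega) h3
      refine ⟨i, v, le_rfl, (h i v e).ge, e, i2, v2, by rw [Fin.le_def] at h4; omega, ?_, h6⟩
      rw [← h i v e]; exact h5.trans_lt h2

lemma high_ok {r K : ℕ} {s : Fin n → Option (Fin n)} {w : Fin n → Fin n}
    (h : ∀ i v, s i = some v → w i = v) (J : Fin n)
    (hJ : ∀ i < J, s i = none → Ok r s K i (w i)) (hc : C r w (K + 1) J) : Ok r s K J (w J) := by
  obtain ⟨i1, h1, h2, h3⟩ := hc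
  obtain ⟨i2, v2, h4, h5, h6⟩ := low_chain h J hJ K le_rfl i1 (by rw [Fin.lt_def]; omega) h3
  exact ⟨i2, v2, by rw [Fin.le_def] at h4; omega, h5.trans_lt h2, h6⟩

lemma ok_high {r K : ℕ} {s : Fin n → Option (Fin n)} {w : Fin n → Fin n}
    (h : ∀ i v, s i = some v → w i = v) {j : Fin n} (ho : Ok r s K j (w j)) :
    C r w (K + 1) j := by
  obtain ⟨i, v, h1, h2, h3⟩ := ho
  obtain ⟨rfl, h4⟩ := CS_sound h h3
  exact ⟨i, h1, h2, h4⟩

lemma str_some {r K : ℕ} {w : Fin n → Fin n} (i v : Fin n) (h : str r K w i = some v) :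
    w i = v := by
  unfold str at h
  split_ifs at h
  exact Option.some.inj h

lemma str_none {r K : ℕ} {w : Fin n → Fin n} {i : Fin n} :
    str r K w i = none ↔ C r w (K + 1) i := by
  unfold str
  split_ifs with h <;> simp [h]

lemma str_ok {r K : ℕ} {w : Fin n → Fin n} (j : Fin n) :
    str r K w j = none → Ok r (str r K w) K j (w j) := by
  induction j using WellFoundedLT.induction with
  | ind j ih => exact fun h => high_ok str_some j ih (str_none.1 h)

lemma str_eq {r K : ℕ} {w0 w : Fin n → Fin n} (h : ∀ i v, str r K w0 i = some v → w i = v)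
    (h' : ∀ i, str r K w0 i = none → Ok r (str r K w0) K i (w i)) : str r K w = str r K w0 := by
  funext j
  cases e : str r K w0 j with
  | none => exact str_none.2 (ok_high h (h' j e))
  | some v =>
    have h1 := h j v e
    have h2 := str_some j v e
    have : ¬ C r w (K + 1) j := fun hc => by
      have ho := high_ok h j (fun i _ => h' i) hc
      rw [h1, ← h2] at ho
      have := str_none.2 (ok_high str_some ho)
      rw [e] at this
      cases this
    rw [str, if_neg this, h1]

def Contains {m n : ℕ} (r : ℕ) (q : Equiv.Perm (Fin m)) (p : Equiv.Perm (Fin n)) : Prop :=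
  ∃ f : Fin m → Fin n, (∀ a b : Fin m, (a : ℕ) + 1 = b → (f a : ℕ) + r + 1 ≤ f b) ∧
    ∀ a b, p (f a) < p (f b) ↔ q a < q b

lemma chain_of {m r : ℕ} {p : Equiv.Perm (Fin n)} {f : Fin m → Fin n}
    (h1 : ∀ a b : Fin m, (a : ℕ) + 1 = b → (f a : ℕ) + r + 1 ≤ f b)
    (h2 : ∀ a b, a < b → p (f a) < p (f b)) : ∀ k (hk : k < m), C r p k (f ⟨k, hk⟩) := by
  intro k
  induction k with
  | zero => intro _; trivial
  | succ k ih =>
    intro hk
    exact ⟨f ⟨k, by omega⟩, h1 _ _ rfl, h2 _ _ (by simp [Fin.lt_def]), ih _⟩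

lemma of_chain {r : ℕ} {w : Fin n → Fin n} : ∀ {k : ℕ} {i : Fin n}, C r w k i →
    ∃ g : ℕ → Fin n, g k = i ∧ ∀ a < k, (g a : ℕ) + r + 1 ≤ g (a + 1) ∧ w (g a) < w (g (a + 1)) := by
  intro k
  induction k with
  | zero => intro i _; exact ⟨fun _ => i, rfl, by simp⟩
  | succ k ih =>
    rintro i ⟨i', h1, h2, h3⟩
    obtain ⟨g, rfl, hg⟩ := ih h3
    refine ⟨fun a => if a ≤ k then g a else i, by simp, fun a ha => ?_⟩
    by_cases e : a + 1 ≤ k
    · simp only [if_pos e, if_pos (show a ≤ k by omega)]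
      exact hg a (by omega)
    · obtain rfl : a = k := by omega
      simp only [if_neg e, le_refl, if_true]
      exact ⟨h1, h2⟩

lemma tau_contains {r K : ℕ} {p : Equiv.Perm (Fin n)} {i j j' : Fin n} (hc : C r p K i)
    (h1 : (i : ℕ) + r + 1 ≤ j) (h2 : (j : ℕ) + r + 1 ≤ j') (h3 : p i < p j') (h4 : p j' < p j) :
    Contains r (Equiv.swap (⟨K + 1, by omega⟩ : Fin (K + 3)) ⟨K + 2, by omega⟩) p := by
  obtain ⟨g, rfl, hg⟩ := of_chain hc
  let F : ℕ → Fin n := fun a => if a ≤ K then g a else if a = K + 1 then j else j'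
  have F1 : ∀ a ≤ K, F a = g a := fun a ha => if_pos ha
  have F2 : F (K + 1) = j := by simp [F]
  have F3 : F (K + 2) = j' := by simp [F]
  set t := Equiv.swap (⟨K + 1, by omega⟩ : Fin (K + 3)) ⟨K + 2, by omega⟩ with ht
  have t1 : ∀ a : Fin (K + 3), (a : ℕ) ≤ K → t a = a := fun a ha =>
    Equiv.swap_apply_of_ne_of_ne (by simp [Fin.ext_iff]; omega) (by simp [Fin.ext_iff]; omega)
  have hm : StrictMono (fun a : Fin (K + 3) => p (F (t a))) := by
    rw [Fin.strictMono_iff_lt_succ]
    intro a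
    rcases lt_trichotomy (a : ℕ) K with e | e | e
    · rw [t1 _ (by simp; omega), t1 _ (by simp; omega)]
      simp only [Fin.val_castSucc, Fin.val_succ]
      rw [F1 _ (by omega), F1 _ (by omega)]
      exact (hg a e).2
    · have : a.succ = ⟨K + 1, by omega⟩ := by simp [Fin.ext_iff, e]
      rw [t1 _ (by simp; omega), this, ht, Equiv.swap_apply_left]
      simp only [Fin.val_castSucc]
      rw [F3, e, F1 _ le_rfl]
      exact h3
    · have e1 : a.castSucc = ⟨K + 1, by omega⟩ := by
        have := a.2; simp [Fin.ext_iff]; omega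
      have e2 : a.succ = ⟨K + 2, by omega⟩ := by
        have := a.2; simp [Fin.ext_iff]; omega
      rw [e1, e2, ht, Equiv.swap_apply_left, Equiv.swap_apply_right]
      simp only
      rw [F2, F3]
      exact h4
  refine ⟨fun a => F a, fun a b hab => ?_, fun a b => ?_⟩
  · have hb := b.2
    simp only
    rw [← hab]
    rcases lt_trichotomy (a : ℕ) K with e | e | e
    · rw [F1 _ (by omega), F1 _ (by omega)]; exact (hg a e).1
    · rw [e, F2, F1 _ le_rfl]; exact h1
    · rw [show (a : ℕ) = K + 1 by omega, F2, F3]; exact h2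
  · rw [← hm.lt_iff_lt]
    simp only [ht, Equiv.swap_apply_self]

lemma fiber (r K : ℕ) (s : Fin n → Option (Fin n)) :
    #((univ.filter (fun p : Equiv.Perm (Fin n) => ¬ Contains r
      (Equiv.swap (⟨K + 1, by omega⟩ : Fin (K + 3)) ⟨K + 2, by omega⟩) p)).filter
        (fun p : Equiv.Perm (Fin n) => str r K p = s)) ≤
    #((univ.filter (fun p : Equiv.Perm (Fin n) => ¬ Contains r
      (1 : Equiv.Perm (Fin (K + 3))) p)).filter (fun p : Equiv.Perm (Fin n) => str r K p = s)) := by
  rcases ((univ.filter (fun p : Equiv.Perm (Fin n) => ¬ Contains r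
      (Equiv.swap (⟨K + 1, by omega⟩ : Fin (K + 3)) ⟨K + 2, by omega⟩) p)).filter
        (fun p : Equiv.Perm (Fin n) => str r K p = s)).eq_empty_or_nonempty with h | ⟨p0, h0⟩
  · rw [h]; simp
  obtain rfl := (mem_filter.1 h0).2
  set s := str r K p0 with hs
  have hps : ∀ j, j ∈ (univ.filter (fun j => s j = none)).sort (· ≤ ·) ↔ s j = none := by simp
  have hlow : ∀ j, ¬ s j = none → s j = some (p0 j) := fun j hj => by
    obtain ⟨v, hv⟩ := Option.ne_none_iff_exists'.1 hj
    rw [hv, str_some j v hv]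
  have hN : ∀ y, y ∈ (univ.filter (fun j => s j = none)).image p0 ↔ ∃ i, s i = none ∧ p0 i = y := by
    simp
  have := board r (Ok r s K) (fun j j' y h ⟨i, v, h1, h2⟩ =>
      ⟨i, v, by rw [Fin.le_def] at h; omega, h2⟩)
    (fun j y y' h ⟨i, v, h1, h2, h3⟩ => ⟨i, v, h1, h2.trans_le h, h3⟩)
    ((univ.filter (fun j => s j = none)).sort (· ≤ ·)) (sortedLT_sort _).pairwise
    ((univ.filter (fun j => s j = none)).image p0) p0
  refine le_trans ?_ (this.trans ?_)
  · refine card_le_card_of_injOn (fun p : Equiv.Perm (Fin n) => (p : Fin n → Fin n)) ?_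
      (fun p _ p' _ h => DFunLike.coe_injective h)
    intro p hp
    simp only [coe_filter, mem_filter, mem_univ, true_and, Set.mem_ofPred_eq] at hp ⊢
    obtain ⟨hav, hp⟩ := hp
    have hl : ∀ j, ¬ s j = none → p j = p0 j := fun j hj => str_some j _ (by rw [hp, hlow j hj])
    refine ⟨fun i hi => hl i (by rwa [hps] at hi), fun j hj => Or.inr (Or.inr ?_),
      fun y hy => ?_, fun j _ j' _ h => p.injective h, fun j hj => ?_, by simp,
      fun j hj j' hj' hlt ⟨⟨i, v, a1, a2, a3⟩, a4⟩ => ?_⟩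
    · rw [hN]
      refine ⟨p0.symm (p j), ?_, by simp⟩
      by_contra hh
      have := hl _ hh
      rw [Equiv.apply_symm_apply] at this
      rw [p.injective this] at hh
      exact hh ((hps j).1 hj)
    · simp only [notMem_empty, false_or] at hy
      obtain ⟨i, hi, rfl⟩ := (hN y).1 hy
      refine ⟨p.symm (p0 i), (hps _).2 ?_, by simp⟩
      by_contra hh
      have := hl _ hh
      rw [Equiv.apply_symm_apply] at this
      rw [← p0.injective this] at hh
      exact hh hi
    · have := str_ok (r := r) (K := K) (w := p) j (by rw [hp]; exact (hps j).1 hj)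
      rwa [hp] at this
    · by_contra hh
      obtain ⟨rfl, a5⟩ := CS_sound (w := p) (fun i v h => str_some i v (by rw [hp]; exact h)) a3
      exact hav (tau_contains a5 a1 (by omega) a2 a4)
  · refine le_trans (card_le_card ?_) (card_image_le (f := fun p : Equiv.Perm (Fin n) =>
      (p : Fin n → Fin n)))
    intro w hw
    obtain ⟨h1, h2, -, h4, h5, -, h7⟩ := (mem_filter.1 hw).2
    have hl : ∀ j, ¬ s j = none → w j = p0 j := fun j hj => h1 j (by rwa [hps])
    have hh : ∀ j j', s j = none → ¬ s j' = none → w j ≠ w j' := fun j j' hj hj' e => by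
      have := h2 j ((hps j).2 hj)
      simp only [notMem_empty, false_or] at this
      obtain ⟨i, hi, e'⟩ := (hN _).1 this
      rw [e, hl j' hj'] at e'
      exact hj' (p0.injective e' ▸ hi)
    have hinj : Function.Injective w := fun j j' e => by
      by_cases a : s j = none <;> by_cases a' : s j' = none
      · exact h4 j ((hps j).2 a) j' ((hps j').2 a') e
      · exact absurd e (hh j j' a a')
      · exact absurd e.symm (hh j' j a' a)
      · rw [hl j a, hl j' a'] at e; exact p0.injective e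
    have he : str r K w = s := str_eq (fun i v h => by
      rw [hl i (by rw [hs, h]; simp), str_some i v h]) (fun i hi => h5 i ((hps i).2 hi))
    refine mem_image.2 ⟨Equiv.ofBijective w (Finite.injective_iff_bijective.1 hinj), ?_, rfl⟩
    simp only [mem_filter, mem_univ, true_and]
    refine ⟨?_, he⟩
    rintro ⟨f, f1, f2⟩
    have c := chain_of f1 (fun a b h => (f2 a b).2 h)
    have c1 : s (f ⟨K + 1, by omega⟩) = none := he ▸ str_none.2 (c (K + 1) _)
    have c2 : s (f ⟨K + 2, by omega⟩) = none := he ▸ str_none.2 (C_down (c (K + 2) _))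
    have g := f1 ⟨K + 1, by omega⟩ ⟨K + 2, by omega⟩ rfl
    have := h7 _ ((hps _).2 c1) _ ((hps _).2 c2) (by rw [Fin.lt_def]; omega)
      ((f2 _ _).2 (by simp [Fin.lt_def]))
    omega

lemma main (r K n : ℕ) :
    #(univ.filter (fun p : Equiv.Perm (Fin n) => ¬ Contains r
      (Equiv.swap (⟨K + 1, by omega⟩ : Fin (K + 3)) ⟨K + 2, by omega⟩) p)) ≤
    #(univ.filter (fun p : Equiv.Perm (Fin n) => ¬ Contains r
      (1 : Equiv.Perm (Fin (K + 3))) p)) := by
  rw [card_eq_sum_card_fiberwise (f := fun p : Equiv.Perm (Fin n) => str r K p) (t := univ)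
      (fun _ _ => mem_coe.2 (mem_univ _)),
    card_eq_sum_card_fiberwise (f := fun p : Equiv.Perm (Fin n) => str r K p) (t := univ)
      (s := univ.filter (fun p : Equiv.Perm (Fin n) => ¬ Contains r
      (1 : Equiv.Perm (Fin (K + 3))) p)) (fun _ _ => mem_coe.2 (mem_univ _))]
  exact sum_le_sum fun s _ => fiber r K s

end Pool.Agent.H.MP_47869a_co
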